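import Pool.Agent.Helper10.GO.GoalsA

/-! Packet GO-SATL (project GO, MP_6af536_nt): saturation in one block and a nonzerodivisor. -/

set_option autoImplicit false

open MvPolynomial

noncomputable section

namespace Pool.Agent.Helper30.GO

open Pool.Agent.Helper10.GO

section colon

variable {R : Type} [CommRing R]

/-- `(I : 𝔪^s)` -/
def Jc (I m : Ideal R) (s : ℕ) : Ideal R where
  carrier := {Q | ∀ P ∈ m ^ s, P * Q ∈ I}
  add_mem' := by
    intro a b ha hb P hP
    rw [mul_add]
    exact I.add_mem (ha P hP) (hb P hP)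
  zero_mem' := by
    intro P _
    rw [mul_zero]
    exact I.zero_mem
  smul_mem' := by
    intro c a ha P hP
    rw [smul_eq_mul, mul_left_comm]
    exact I.mul_mem_left _ (ha P hP)

theorem mem_Jc {I m : Ideal R} {s : ℕ} {Q : R} : Q ∈ Jc I m s ↔ ∀ P ∈ m ^ s, P * Q ∈ I := Iff.rfl

theorem Jc_mono (I m : Ideal R) : Monotone (Jc I m) := by
  intro s t hst Q hQ P hP
  exact hQ P (Ideal.pow_le_pow_right hst hP)

theorem Jc_step {I m : Ideal R} {s : ℕ} {Q : R} (h : ∀ P ∈ m, P * Q ∈ Jc I m s) :
    Q ∈ Jc I m (s + 1) := by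
  intro P hP
  rw [pow_succ] at hP
  refine Submodule.mul_induction_on hP ?_ ?_
  · intro a ha b hb
    rw [mul_assoc]
    exact h b hb a ha
  · intro x y hx hy
    rw [add_mul]
    exact I.add_mem hx hy

end colon

section poly

variable {K : Type} [Field K] {r N : ℕ}

/-- the ideal of the block `j` -/
def mI (K : Type) [Field K] (r N : ℕ) (j : Fin r) : Ideal (MvPolynomial (Fin r × Fin (N + 1)) K) :=
  Ideal.span (Set.range fun i : Fin (N + 1) => X (j, i))

theorem wt_sub (d : (Fin r × Fin (N + 1)) →₀ ℕ) (p : Fin r × Fin (N + 1)) (hp : d p ≠ 0) :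
    Finsupp.weight (bw r N) d =
      Finsupp.weight (bw r N) (d - Finsupp.single p 1) + Pi.single p.1 1 := by
  have h1 : d = (d - Finsupp.single p 1) + Finsupp.single p 1 := by
    refine (tsub_add_cancel_of_le ?_).symm
    rw [Finsupp.single_le_iff]
    omega
  conv_lhs => rw [h1, map_add, Finsupp.weight_single]
  rw [one_smul]
  rfl

theorem comp_X_mul (p : Fin r × Fin (N + 1)) (Q : MvPolynomial (Fin r × Fin (N + 1)) K)
    (β : Fin r → ℕ) :
    weightedHomogeneousComponent (bw r N) (β + Pi.single p.1 1) (X p * Q) =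
      X p * weightedHomogeneousComponent (bw r N) β Q := by
  classical
  ext d
  rw [coeff_weightedHomogeneousComponent, coeff_X_mul', coeff_X_mul',
    coeff_weightedHomogeneousComponent]
  by_cases hp : p ∈ d.support
  · rw [if_pos hp, if_pos hp]
    have h1 := wt_sub d p (Finsupp.mem_support_iff.1 hp)
    rw [h1]
    by_cases h2 : Finsupp.weight (bw r N) (d - Finsupp.single p 1) = β
    · rw [if_pos h2, if_pos (by rw [h2])]
    · rw [if_neg h2, if_neg fun h => h2 (add_right_cancel h)]
  · rw [if_neg hp, if_neg hp, ite_self]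

theorem MH_Jc (I : Ideal (MvPolynomial (Fin r × Fin (N + 1)) K)) (hI : MH I) (j : Fin r) (s : ℕ) :
    MH (Jc I (mI K r N j) s) := by
  induction s with
  | zero =>
    intro Q hQ β P _
    refine I.mul_mem_left _ (hI Q ?_ β)
    have h1 := hQ 1 (by rw [pow_zero, Ideal.one_eq_top]; exact Submodule.mem_top)
    rwa [one_mul] at h1
  | succ s ih =>
    intro Q hQ β
    refine Jc_step fun P hP => ?_
    refine Submodule.span_induction (p := fun P _ =>
      P * weightedHomogeneousComponent (bw r N) β Q ∈ Jc I (mI K r N j) s) ?_ ?_ ?_ ?_ hP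
    · rintro _ ⟨i, rfl⟩
      change X (j, i) * _ ∈ _
      rw [← comp_X_mul (j, i) Q β]
      refine ih _ ?_ _
      intro P' hP'
      rw [← mul_assoc]
      refine hQ _ ?_
      rw [pow_succ]
      exact Ideal.mul_mem_mul hP' (Ideal.subset_span ⟨i, rfl⟩)
    · rw [zero_mul]
      exact Submodule.zero_mem _
    · intro x y _ _ hx hy
      rw [add_mul]
      exact Submodule.add_mem _ hx hy
    · intro a x _ hx
      rw [smul_eq_mul, mul_assoc]
      exact Ideal.mul_mem_left _ _ hx

theorem exists_block (d : (Fin r × Fin (N + 1)) →₀ ℕ) (j : Fin r)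
    (h : Finsupp.weight (bw r N) d j ≠ 0) : ∃ i, d (j, i) ≠ 0 := by
  by_contra hc
  push Not at hc
  apply h
  rw [Finsupp.weight_apply, Finsupp.sum, Finset.sum_apply]
  refine Finset.sum_eq_zero fun p _ => ?_
  by_cases hp : p.1 = j
  · have h1 : d p = 0 := by
      have := hc p.2
      rw [← hp] at this
      exact this
    rw [h1, zero_smul]
    rfl
  · rw [Pi.smul_apply]
    unfold bw
    rw [Pi.single_eq_of_ne (fun h => hp h.symm), smul_zero]

theorem mono_mem (j : Fin r) (c : K) : ∀ (s : ℕ) (d : (Fin r × Fin (N + 1)) →₀ ℕ),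
    s ≤ Finsupp.weight (bw r N) d j → monomial d c ∈ mI K r N j ^ s := by
  intro s
  induction s with
  | zero =>
    intro d _
    rw [pow_zero, Ideal.one_eq_top]
    exact Submodule.mem_top
  | succ s ih =>
    intro d hd
    obtain ⟨i, hi⟩ := exists_block d j (by omega)
    have h1 := wt_sub d (j, i) hi
    have h2 : Finsupp.weight (bw r N) d j =
        Finsupp.weight (bw r N) (d - Finsupp.single (j, i) 1) j + 1 := by
      rw [h1, Pi.add_apply, Pi.single_eq_same]
    have h3 := ih (d - Finsupp.single (j, i) 1) (by omega)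
    have h4 : monomial d c = monomial (d - Finsupp.single (j, i) 1) c * X (j, i) := by
      rw [X, monomial_mul, mul_one, tsub_add_cancel_of_le]
      rw [Finsupp.single_le_iff]
      omega
    rw [h4, pow_succ]
    exact Ideal.mul_mem_mul h3 (Ideal.subset_span ⟨i, rfl⟩)

/-- one homogeneous generator -/
theorem gen_hom (I : Ideal (MvPolynomial (Fin r × Fin (N + 1)) K)) (j : Fin r) (s B : ℕ)
    (γ : Fin r → ℕ) (g : MvPolynomial (Fin r × Fin (N + 1)) K) (hg : g ∈ mh K r N γ)
    (hgJ : g ∈ Jc I (mI K r N j) s) (hB : s + γ j ≤ B) (β : Fin r → ℕ) (hβ : B ≤ β j)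
    (q : MvPolynomial (Fin r × Fin (N + 1)) K) :
    weightedHomogeneousComponent (bw r N) β (q * g) ∈ I := by
  classical
  induction q using MvPolynomial.induction_on' with
  | monomial d c =>
    have h1 : monomial d c * g ∈ weightedHomogeneousSubmodule K (bw r N)
        (Finsupp.weight (bw r N) d + γ) :=
      (isWeightedHomogeneous_monomial (bw r N) d c rfl).mul hg
    rw [weightedHomogeneousComponent_of_mem h1]
    split_ifs with h2
    · refine hgJ _ (mono_mem j c s d ?_)
      have h3 := congrFun h2 j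
      rw [Pi.add_apply] at h3
      omega
    · exact I.zero_mem
  | add p q hp hq =>
    rw [add_mul, map_add]
    exact I.add_mem hp hq

theorem gen_any (I : Ideal (MvPolynomial (Fin r × Fin (N + 1)) K)) (j : Fin r) (s : ℕ)
    (hJ : MH (Jc I (mI K r N j) s)) (g : MvPolynomial (Fin r × Fin (N + 1)) K)
    (hgJ : g ∈ Jc I (mI K r N j) s) :
    ∃ B : ℕ, ∀ β : Fin r → ℕ, B ≤ β j → ∀ q : MvPolynomial (Fin r × Fin (N + 1)) K,
      weightedHomogeneousComponent (bw r N) β (q * g) ∈ I := by
  classical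
  have hfin := weightedHomogeneousComponent_finsupp (w := bw r N) g
  set A := hfin.toFinset with hA
  have hsum : g = ∑ γ ∈ A, weightedHomogeneousComponent (bw r N) γ g := by
    have h1 := sum_weightedHomogeneousComponent (w := bw r N) g
    rw [finsum_eq_sum _ hfin] at h1
    exact h1.symm
  refine ⟨s + A.sup fun γ => γ j, fun β hβ q => ?_⟩
  rw [hsum, Finset.mul_sum, map_sum]
  refine I.sum_mem fun γ hγ => ?_
  have h2 : γ j ≤ A.sup fun γ => γ j := Finset.le_sup (f := fun γ : Fin r → ℕ => γ j) hγ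
  exact gen_hom I j s (s + A.sup fun γ => γ j) γ _ (weightedHomogeneousComponent_mem _ _ _)
    (hJ g hgJ γ) (by omega) β hβ q

theorem exists_B (I : Ideal (MvPolynomial (Fin r × Fin (N + 1)) K)) (j : Fin r) (s : ℕ)
    (hJ : MH (Jc I (mI K r N j) s)) :
    ∃ B : ℕ, ∀ β : Fin r → ℕ, B ≤ β j → ∀ Q ∈ mh K r N β, Q ∈ Jc I (mI K r N j) s → Q ∈ I := by
  classical
  obtain ⟨G, hG⟩ : (Jc I (mI K r N j) s).FG := IsNoetherian.noetherian _
  have hmem : ∀ g ∈ G, g ∈ Jc I (mI K r N j) s := fun g hg => by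
    rw [← hG]
    exact Submodule.subset_span hg
  choose Bf hBf using fun g : G => gen_any I j s hJ g.1 (hmem g.1 g.2)
  refine ⟨Finset.univ.sup Bf, fun β hβ Q hQ hQJ => ?_⟩
  rw [← hG] at hQJ
  obtain ⟨f, -, hf⟩ := Submodule.mem_span_finset.1 hQJ
  have h1 : weightedHomogeneousComponent (bw r N) β Q = Q := by
    rw [weightedHomogeneousComponent_of_mem hQ, if_pos rfl]
  rw [← h1, ← hf, map_sum]
  refine I.sum_mem fun g hg => ?_
  rw [smul_eq_mul]
  exact hBf ⟨g, hg⟩ β ((Finset.le_sup (Finset.mem_univ (⟨g, hg⟩ : G))).trans hβ) (f g)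

end poly

theorem satl : S_SATL := by
  classical
  intro K _ _ r N I hI j
  set m := mI K r N j with hm
  obtain ⟨s, hs⟩ := monotone_stabilizes_iff_noetherian.2
    (inferInstance : IsNoetherian (MvPolynomial (Fin r × Fin (N + 1)) K)
      (MvPolynomial (Fin r × Fin (N + 1)) K)) ⟨Jc I m, Jc_mono I m⟩
  have hs1 : Jc I m (s + 1) = Jc I m s := (hs (s + 1) (Nat.le_succ s)).symm
  have hMH := MH_Jc I hI j s
  refine ⟨Jc I m s, ?_, hMH, exists_B I j s hMH, ?_⟩
  · intro Q hQ P _
    exact I.mul_mem_left _ hQ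
  set J := Jc I m s with hJ
  let M := MvPolynomial (Fin r × Fin (N + 1)) K ⧸ J
  let φ : (Fin (N + 1) → K) →ₗ[K] MvPolynomial (Fin r × Fin (N + 1)) K :=
    ∑ i, (LinearMap.proj i).smulRight (X (j, i))
  have hφ : ∀ c, φ c = ∑ i, C (c i) * X (j, i) := by
    intro c
    simp only [φ, LinearMap.sum_apply, LinearMap.smulRight_apply, LinearMap.proj_apply,
      smul_eq_C_mul]
  have hfin : (associatedPrimes (MvPolynomial (Fin r × Fin (N + 1)) K) M).Finite :=
    associatedPrimes.finite _ _
  have hF : Finite (associatedPrimes (MvPolynomial (Fin r × Fin (N + 1)) K) M) := hfin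
  obtain ⟨c, hc⟩ : ∃ c : Fin (N + 1) → K,
      ∀ P : associatedPrimes (MvPolynomial (Fin r × Fin (N + 1)) K) M, φ c ∉ P.1 := by
    by_contra hcon
    push Not at hcon
    obtain ⟨P, hP⟩ := Subspace.exists_eq_top_of_iUnion_eq_univ
      (p := fun P : associatedPrimes (MvPolynomial (Fin r × Fin (N + 1)) K) M =>
        (Submodule.restrictScalars K P.1).comap φ) (by
        rw [Set.eq_univ_iff_forall]
        intro c
        obtain ⟨P, hP⟩ := hcon c
        exact Set.mem_iUnion.2 ⟨P, hP⟩)
    have hX : ∀ i, X (j, i) ∈ P.1 := by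
      intro i
      have h1 : (Pi.single i 1 : Fin (N + 1) → K) ∈
          (Submodule.restrictScalars K P.1).comap φ := by
        rw [hP]
        exact Submodule.mem_top
      have h2 : φ (Pi.single i 1) = X (j, i) := by
        rw [hφ, Finset.sum_eq_single i]
        · rw [Pi.single_eq_same, C_1, one_mul]
        · intro i' _ hi'
          rw [Pi.single_eq_of_ne hi', C_0, zero_mul]
        · intro h
          exact absurd (Finset.mem_univ _) h
      have h3 : φ (Pi.single i 1) ∈ P.1 := h1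
      rwa [h2] at h3
    have hmP : m ≤ P.1 := by
      rw [hm]
      unfold mI
      rw [Ideal.span_le]
      rintro _ ⟨i, rfl⟩
      exact hX i
    obtain ⟨hprime, x, hx⟩ := isAssociatedPrime_iff.1 P.2
    obtain ⟨Q, rfl⟩ := Ideal.Quotient.mk_surjective x
    have hQ : Q ∈ Jc I m (s + 1) := by
      refine Jc_step fun P' hP' => ?_
      have h1 := hmP hP'
      rw [hx, Submodule.mem_colon_singleton, Submodule.mem_bot] at h1
      have h2 : Ideal.Quotient.mk J (P' * Q) = 0 := h1
      rwa [Ideal.Quotient.eq_zero_iff_mem] at h2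
    rw [hs1] at hQ
    have h3 : Ideal.Quotient.mk J Q = 0 := Ideal.Quotient.eq_zero_iff_mem.2 hQ
    apply hprime.ne_top
    rw [hx, Ideal.eq_top_iff_one, Submodule.mem_colon_singleton, Submodule.mem_bot, h3, smul_zero]
  refine ⟨c, fun Q hQ => ?_⟩
  rw [← hφ] at hQ
  by_contra hQJ
  have h1 : φ c ∈ ⋃ p ∈ associatedPrimes (MvPolynomial (Fin r × Fin (N + 1)) K) M,
      (p : Set (MvPolynomial (Fin r × Fin (N + 1)) K)) := by
    rw [biUnion_associatedPrimes_eq_zero_divisors]
    refine ⟨Ideal.Quotient.mk J Q, ?_, ?_⟩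
    · rwa [Ne, Ideal.Quotient.eq_zero_iff_mem]
    · have h2 : Ideal.Quotient.mk J (φ c * Q) = 0 := Ideal.Quotient.eq_zero_iff_mem.2 hQ
      exact h2
  rw [Set.mem_iUnion₂] at h1
  obtain ⟨P, hP, hcP⟩ := h1
  exact hc ⟨P, hP⟩ hcP

end Pool.Agent.Helper30.GO
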