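import Pool.Agent.Helper10.GO.GoalsT

set_option autoImplicit false

open Finset

noncomputable section

namespace Pool.Agent.Helper30.GO

open Pool.Agent.Helper10.GO Pool.Agent.Helper80.HD Pool.Agent.Helper80.AD

theorem update_comp_succAbove {k : ℕ} {B : Type} (Y : Fin (k + 1) → B) (i : Fin (k + 1)) (b : B) :
    (fun s => Function.update Y i b (i.succAbove s)) = fun s => Y (i.succAbove s) := by
  funext s
  rw [Function.update_of_ne (Fin.succAbove_ne i s)]

theorem update_cycleRange {k : ℕ} {B : Type} (Y : Fin (k + 1) → B) (i : Fin (k + 1)) (b : B) :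
    Function.update Y i b ∘ (i.cycleRange.symm) = (Fin.cons b (fun s => Y (i.succAbove s)) : Fin (k + 1) → B) := by
  funext l
  refine Fin.cases ?_ (fun s => ?_) l
  · show Function.update Y i b (i.cycleRange.symm 0) = _
    rw [Fin.cycleRange_symm_zero, Function.update_self]
    simp
  · show Function.update Y i b (i.cycleRange.symm s.succ) = _
    rw [Fin.cycleRange_symm_succ, Function.update_of_ne (Fin.succAbove_ne i s)]
    simp

theorem update_comp_succAbove' {k : ℕ} {B : Type} (Y : Fin (k + 1) → B) (i l : Fin (k + 1)) (l' : Fin k)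
    (h : l.succAbove l' = i) (b : B) :
    (fun s => Function.update Y i b (l.succAbove s)) =
      Function.update (fun s => Y (l.succAbove s)) l' b := by
  funext s
  by_cases hs : s = l'
  · subst hs
    rw [h, Function.update_self, Function.update_self]
  · rw [Function.update_of_ne hs, Function.update_of_ne]
    intro h'
    rw [← h] at h'
    exact hs (Fin.succAbove_right_injective h')

theorem urel : S_UREL := by
  intro k B P h cst Pr E₀ D G E C hX m a b t p hp hle Y i
  have hE : ∀ c : B, E (Function.update Y i c) = E (Fin.cons c (fun s => Y (i.succAbove s)) : Fin (k + 1) → B) := by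
    intro c
    rw [← update_cycleRange, hX.symE]
  have hpos := hX.pos m a b t p hp hle (fun s => Y (i.succAbove s))
  have hUU : ∀ c : B, UU E D (Function.update Y i c) - D (fun s => Y (i.succAbove s)) =
      E (Fin.cons c (fun s => Y (i.succAbove s)) : Fin (k + 1) → B) +
        ∑ s : Fin k, D (fun u => Function.update Y i c ((i.succAbove s).succAbove u)) := by
    intro c
    unfold UU
    rw [Fin.sum_univ_succAbove _ i, update_comp_succAbove, hE]
    ring
  have hdeg : ∀ s : Fin k, 0 ≤ ∑ j, (a j : ℝ) *
      D (fun u => Function.update Y i (b j) ((i.succAbove s).succAbove u)) := by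
    intro s
    obtain ⟨l', hl'⟩ := Fin.exists_succAbove_eq (Fin.succAbove_ne i s).symm
    have h1 := hX.deg m a b t p hp hle (fun u => Y ((i.succAbove s).succAbove u)) l'
    simp only [update_comp_succAbove' Y i (i.succAbove s) l' hl']
    exact h1
  have hsum : 0 ≤ ∑ s : Fin k, ∑ j, (a j : ℝ) *
      D (fun u => Function.update Y i (b j) ((i.succAbove s).succAbove u)) :=
    Finset.sum_nonneg fun s _ => hdeg s
  rw [Finset.sum_comm] at hsum
  simp only [hUU, mul_add, Finset.sum_add_distrib, Finset.mul_sum]
  linarith

end Pool.Agent.Helper30.GO
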